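import Pool.Agent.Helper47.EP.Goals

/-! Project EP: packet MA. -/

set_option autoImplicit false

namespace Pool.Agent.Helper98.EP.MA

open MonoidAlgebra IsLocalRing
open scoped TensorProduct

/-- the cyclic group of order `p` -/
abbrev G (p : ℕ) : Type := Multiplicative (ZMod p)

lemma pow_p {p : ℕ} (g : G p) : g ^ p = 1 := by
  apply Multiplicative.toAdd.injective
  rw [toAdd_pow, toAdd_one, nsmul_eq_mul, CharP.cast_eq_zero, zero_mul]

/-- the augmentation -/
noncomputable def aug (p : ℕ) (R : Type) [CommRing R] : MonoidAlgebra R (G p) →ₐ[R] R :=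
  MonoidAlgebra.lift R R (G p) 1

lemma isLocal {p : ℕ} [hp : Fact p.Prime] {R : Type} [CommRing R] [IsLocalRing R]
    (hpm : (p : R) ∈ maximalIdeal R) : IsLocalRing (MonoidAlgebra R (G p)) := by
  have hfin : Module.Finite R (MonoidAlgebra R (G p)) :=
    Module.Finite.of_basis (MonoidAlgebra.basis (G p) R)
  have key : ∀ x : MonoidAlgebra R (G p), IsUnit (aug p R x) → IsUnit x := by
    intro x hx
    by_contra hne
    obtain ⟨M, hM, hxM⟩ := exists_max_ideal_of_mem_nonunits hne
    have hmax : (M.comap (algebraMap R (MonoidAlgebra R (G p)))).IsMaximal :=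
      Ideal.isMaximal_comap_of_isIntegral_of_isMaximal M
    have hm : M.comap (algebraMap R (MonoidAlgebra R (G p))) = maximalIdeal R :=
      IsLocalRing.eq_maximalIdeal hmax
    letI : Field (MonoidAlgebra R (G p) ⧸ M) := Ideal.Quotient.field M
    have hp0 : (p : MonoidAlgebra R (G p) ⧸ M) = 0 := by
      have h1 : (algebraMap R (MonoidAlgebra R (G p))) (p : R) ∈ M := by
        rw [← Ideal.mem_comap, hm]
        exact hpm
      have h2 := Ideal.Quotient.eq_zero_iff_mem.2 h1
      rw [map_natCast, map_natCast] at h2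
      exact h2
    have hch : CharP (MonoidAlgebra R (G p) ⧸ M) p :=
      (CharP.charP_iff_prime_eq_zero hp.out).2 hp0
    have hg : ∀ g : G p, Ideal.Quotient.mk M (single g (1 : R)) = 1 := by
      intro g
      have h1 : (Ideal.Quotient.mk M (single g (1 : R)) - 1) ^ p = 0 := by
        rw [sub_pow_char, one_pow, ← map_pow, single_pow, pow_p, one_pow, ← one_def, map_one,
          sub_self]
      exact sub_eq_zero.1 (eq_zero_of_pow_eq_zero h1)
    have hq : (Ideal.Quotient.mk M) =
        ((Ideal.Quotient.mk M).comp (algebraMap R (MonoidAlgebra R (G p)))).comp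
          (aug p R : MonoidAlgebra R (G p) →+* R) := by
      apply MonoidAlgebra.ringHom_ext
      · intro b
        rw [RingHom.comp_apply, RingHom.comp_apply]
        have h1 : (aug p R : MonoidAlgebra R (G p) →+* R) (single 1 b) = b := by
          change aug p R (single 1 b) = b
          rw [aug, lift_single, map_one, smul_eq_mul, mul_one]
        rw [h1]
        rfl
      · intro g
        rw [hg, RingHom.comp_apply, RingHom.comp_apply]
        have h1 : (aug p R : MonoidAlgebra R (G p) →+* R) (single g 1) = 1 := by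
          change aug p R (single g 1) = 1
          rw [aug, lift_single, MonoidHom.one_apply, smul_eq_mul, mul_one]
        rw [h1, map_one, map_one]
    have h3 : Ideal.Quotient.mk M x = 0 := Ideal.Quotient.eq_zero_iff_mem.2 hxM
    rw [hq, RingHom.comp_apply, RingHom.comp_apply, Ideal.Quotient.eq_zero_iff_mem,
      ← Ideal.mem_comap, hm] at h3
    exact (IsLocalRing.mem_maximalIdeal _).1 h3 hx
  exact IsLocalRing.of_isUnit_or_isUnit_one_sub_self fun a => by
    rcases IsLocalRing.isUnit_or_isUnit_one_sub_self (aug p R a) with h | h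
    · exact Or.inl (key a h)
    · right
      apply key
      rwa [map_sub, map_one]

/-- the representation of `G p` defined by `z` -/
def rep {p : ℕ} [Fact p.Prime] {A : Type} [Monoid A] (z : A) (hz : z ^ p = 1) : G p →* A where
  toFun j := z ^ (Multiplicative.toAdd j).val
  map_one' := by
    rw [toAdd_one, ZMod.val_zero, pow_zero]
  map_mul' a b := by
    rw [toAdd_mul, ZMod.val_add, ← pow_eq_pow_mod _ hz, pow_add]

lemma gen {p : ℕ} [Fact p.Prime] (g : G p) : ∃ n : ℕ, g = (Multiplicative.ofAdd (1 : ZMod p)) ^ n := by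
  refine ⟨(Multiplicative.toAdd g).val, ?_⟩
  apply Multiplicative.toAdd.injective
  rw [toAdd_pow, toAdd_ofAdd, nsmul_eq_mul, mul_one, ZMod.natCast_zmod_val]

theorem t : Pool.Agent.Helper47.EP.S_MA := by
  classical
  intro p hp R _ _ hpm X _ _ _ _ z a hz hsum
  have hloc : IsLocalRing (MonoidAlgebra R (G p)) := isLocal hpm
  have hp1 : Fact (1 < p) := ⟨hp.out.one_lt⟩
  let φ : MonoidAlgebra R (G p) →ₐ[R] Module.End R X :=
    MonoidAlgebra.lift R (Module.End R X) (G p) (rep z hz)
  letI : Module (MonoidAlgebra R (G p)) X := Module.compHom X φ.toRingHom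
  have hsm : ∀ (c : MonoidAlgebra R (G p)) (x : X), c • x = φ c x := fun c x => rfl
  have htow : IsScalarTower R (MonoidAlgebra R (G p)) X := by
    refine ⟨fun r c x => ?_⟩
    rw [hsm, hsm, map_smul, LinearMap.smul_apply]
  let γ : G p := Multiplicative.ofAdd (1 : ZMod p)
  have hγ : ∀ x : X, single γ (1 : R) • x = z x := by
    intro x
    rw [hsm]
    change MonoidAlgebra.lift R (Module.End R X) (G p) (rep z hz) (single γ 1) x = z x
    rw [lift_single, one_smul]
    change (z ^ (1 : ZMod p).val) x = z x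
    rw [ZMod.val_one, pow_one]
  have hγn : ∀ (n : ℕ) (x : X), single (γ ^ n) (1 : R) • x = (z ^ n) x := by
    intro n
    induction n with
    | zero => intro x; rw [pow_zero, pow_zero, ← one_def, one_smul, Module.End.one_apply]
    | succ n ih =>
      intro x
      have h1 : (single (γ ^ (n + 1)) (1 : R) : MonoidAlgebra R (G p))
          = single (γ ^ n) 1 * single γ 1 := by
        rw [single_mul_single, pow_succ, mul_one]
      rw [h1, mul_smul, hγ, ih, pow_succ, Module.End.mul_apply]
  have hfin : Module.Finite (MonoidAlgebra R (G p)) X :=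
    Module.Finite.of_restrictScalars_finite R (MonoidAlgebra R (G p)) X
  -- the splitting
  let tt : (MonoidAlgebra R (G p)) ⊗[R] X →ₗ[MonoidAlgebra R (G p)] X :=
    LinearMap.liftBaseChange (MonoidAlgebra R (G p)) (LinearMap.id : X →ₗ[R] X)
  have htt : ∀ (c : MonoidAlgebra R (G p)) (x : X), tt (c ⊗ₜ x) = c • x := by
    intro c x
    exact LinearMap.liftBaseChange_tmul _ _ _ _
  let s₀ : X →ₗ[R] (MonoidAlgebra R (G p)) ⊗[R] X :=
    ∑ k ∈ Finset.range p,
      (TensorProduct.mk R (MonoidAlgebra R (G p)) X (single (γ ^ k) 1)).comp (a * z ^ (p - k))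
  have hs₀ : ∀ x : X, s₀ x = ∑ k ∈ Finset.range p,
      (single (γ ^ k) (1 : R) : MonoidAlgebra R (G p)) ⊗ₜ[R] a ((z ^ (p - k)) x) := by
    intro x
    exact LinearMap.sum_apply _ _ _
  have hs1 : ∀ x : X, s₀ (single γ (1 : R) • x) = single γ (1 : R) • s₀ x := by
    intro x
    rw [hγ, hs₀, hs₀, Finset.smul_sum]
    let F : ℕ → (MonoidAlgebra R (G p)) ⊗[R] X := fun k =>
      (single (γ ^ k) (1 : R) : MonoidAlgebra R (G p)) ⊗ₜ[R] a ((z ^ (p + 1 - k)) x)
    have h1 : ∀ k ∈ Finset.range p,
        (single (γ ^ k) (1 : R) : MonoidAlgebra R (G p)) ⊗ₜ[R] a ((z ^ (p - k)) (z x)) = F k := by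
      intro k hk
      rw [Finset.mem_range] at hk
      have h2 : p + 1 - k = (p - k) + 1 := by omega
      change _ = (single (γ ^ k) (1 : R) : MonoidAlgebra R (G p)) ⊗ₜ[R] a ((z ^ (p + 1 - k)) x)
      rw [h2, pow_succ, Module.End.mul_apply]
    have h2 : ∀ k ∈ Finset.range p,
        single γ (1 : R) • ((single (γ ^ k) (1 : R) : MonoidAlgebra R (G p)) ⊗ₜ[R]
          a ((z ^ (p - k)) x)) = F (k + 1) := by
      intro k hk
      rw [Finset.mem_range] at hk
      have h3 : p + 1 - (k + 1) = p - k := by omega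
      change _ = (single (γ ^ (k + 1)) (1 : R) : MonoidAlgebra R (G p)) ⊗ₜ[R]
        a ((z ^ (p + 1 - (k + 1))) x)
      rw [h3, TensorProduct.smul_tmul', smul_eq_mul, single_mul_single, mul_one, pow_succ']
    rw [Finset.sum_congr rfl h1, Finset.sum_congr rfl h2]
    have h3 : F p = F 0 := by
      change (single (γ ^ p) (1 : R) : MonoidAlgebra R (G p)) ⊗ₜ[R] a ((z ^ (p + 1 - p)) x) =
        (single (γ ^ 0) (1 : R) : MonoidAlgebra R (G p)) ⊗ₜ[R] a ((z ^ (p + 1 - 0)) x)
      have h6 : z ^ (p + 1) = z := by rw [pow_succ, hz, one_mul]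
      rw [pow_p, pow_zero, Nat.add_sub_cancel_left, Nat.sub_zero, h6, pow_one]
    have h4 := Finset.sum_range_succ F p
    have h5 := Finset.sum_range_succ' F p
    rw [h4, h3] at h5
    exact add_right_cancel h5
  have hs2 : ∀ (n : ℕ) (x : X),
      s₀ (single (γ ^ n) (1 : R) • x) = single (γ ^ n) (1 : R) • s₀ x := by
    intro n
    induction n with
    | zero => intro x; rw [pow_zero, ← one_def, one_smul, one_smul]
    | succ n ih =>
      intro x
      have h1 : (single (γ ^ (n + 1)) (1 : R) : MonoidAlgebra R (G p))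
          = single (γ ^ n) 1 * single γ 1 := by
        rw [single_mul_single, pow_succ, mul_one]
      rw [h1, mul_smul, ih, hs1, ← mul_smul]
  let ss : X →ₗ[MonoidAlgebra R (G p)] (MonoidAlgebra R (G p)) ⊗[R] X :=
    MonoidAlgebra.equivariantOfLinearOfComm s₀ (fun g x => by
      obtain ⟨n, rfl⟩ := gen g
      exact hs2 n x)
  have hts : tt.comp ss = LinearMap.id := by
    apply LinearMap.ext
    intro x
    change tt (s₀ x) = x
    rw [hs₀, map_sum]
    have h1 := congrArg (fun f : Module.End R X => f x) hsum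
    simp only [LinearMap.sum_apply, Module.End.mul_apply, Module.End.one_apply] at h1
    conv_rhs => rw [← h1]
    refine Finset.sum_congr rfl fun k _ => ?_
    rw [htt, hγn]
  have hproj : Module.Projective (MonoidAlgebra R (G p)) X := Module.Projective.of_split ss tt hts
  have hfree : Module.Free (MonoidAlgebra R (G p)) X := Module.free_of_flat_of_isLocalRing
  let c := Module.Free.chooseBasis (MonoidAlgebra R (G p)) X
  let B := (MonoidAlgebra.basis (G p) R).smulTower c
  rw [LinearMap.trace_eq_matrix_trace R B z, Matrix.trace]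
  apply Finset.sum_eq_zero
  rintro ⟨g, i⟩ _
  rw [Matrix.diag_apply, LinearMap.toMatrix_apply]
  have h1 : z (B (g, i)) = B (γ * g, i) := by
    rw [Module.Basis.smulTower_apply, Module.Basis.smulTower_apply, basis_apply, basis_apply, ← hγ,
      ← mul_smul, single_mul_single, mul_one]
  rw [h1, Module.Basis.repr_self, Finsupp.single_apply, if_neg]
  intro h2
  have h3 : γ * g = g := (Prod.mk.inj h2).1
  have h4 : γ = 1 := mul_eq_right.1 h3
  have h5 : (1 : ZMod p) = 0 := Multiplicative.ofAdd.injective h4
  exact one_ne_zero h5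

end Pool.Agent.Helper98.EP.MA
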